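import Pool.Agent.Y254.HK.Stm
import Pool.Agent.Y244.HM.Pipe
import Pool.Agent.W975.HD.Geo1

/-!
# From the oracle with a power loss to the moments of the multiplicity of tubes (part TUBE of HK)
-/

set_option autoImplicit false

open Finset MeasureTheory
open scoped Classical ENNReal

namespace Pool.Agent.Y244.HK
open Pool.Agent.W904.AK Pool.Agent.W46.HD Pool.Agent.W46.HM Pool.Agent.W46.KK Pool.Agent.Y254HK
  Pool.Agent.Y244.HM

/-- Moments of the multiplicity of the cells, with a loss `g n`. -/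
def MomG (d : ℕ) (q : ℝ) (g : ℕ → ℝ) : Prop :=
    ∀ (n : ℕ) (Ω : Type) [Fintype Ω] [Nonempty Ω] (A D : Ω → Fin d → ℝ),
    IsFam n D → ∀ F : Finset (Fin n × (Fin d → ℤ)),
    ∑ x ∈ F, ((mult A D x.1 x.2 : ℕ) : ℝ) ^ q ≤
      g n * n * (Fintype.card Ω : ℝ) ^ (q - 1 / (d : ℝ))

/-- One window of heights. -/
def WinG (d : ℕ) (q : ℝ) (g : ℕ → ℝ) : Prop := ∀ R : ℝ, 0 < R →
    ∃ C : ℝ, 0 ≤ C ∧ ∀ (N : ℕ) (Ω : Type) [Fintype Ω] (P v : Ω → Fin d → ℝ) (t0 r : ℝ), 1 ≤ N →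
    0 ≤ r → N * r ≤ R → (∀ ω k, |v ω k| ≤ 1) →
    (∀ ω ω', (∀ k, ⌊(N : ℝ) * ((v ω k + 1) / 2)⌋ = ⌊(N : ℝ) * ((v ω' k + 1) / 2)⌋) → ω = ω') →
    ∫⁻ z : ℝ × (Fin d → ℝ) in Set.Ico t0 (t0 + 1) ×ˢ (Set.univ : Set (Fin d → ℝ)),
      (∑ ω, (if (∀ k, |z.2 k - (P ω k + z.1 * v ω k)| ≤ r) then (1 : ℝ≥0∞) else 0)) ^ q ≤
    ENNReal.ofReal (C * g N * (N : ℝ) ^ (-(d : ℝ)) * (Fintype.card Ω : ℝ) ^ (q - 1 / (d : ℝ)))

/-- All heights, tubes of length `2 * L` at arbitrary heights. -/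
def AllwG (d : ℕ) (q : ℝ) (g : ℕ → ℝ) (L : ℕ) : Prop := ∀ R : ℝ, 0 < R →
    ∃ C : ℝ, 0 ≤ C ∧ ∀ (N : ℕ) (Ω : Type) [Fintype Ω] (P v : Ω → Fin d → ℝ) (b : Ω → ℝ) (r : ℝ),
    1 ≤ N → 0 ≤ r → N * r ≤ R → (∀ ω k, |v ω k| ≤ 1) →
    (∀ ω ω', (∀ k, ⌊(N : ℝ) * ((v ω k + 1) / 2)⌋ = ⌊(N : ℝ) * ((v ω' k + 1) / 2)⌋) → ω = ω') →
    ∫⁻ z : ℝ × (Fin d → ℝ), (∑ ω, (if (|z.1 - b ω| ≤ L ∧
        ∀ k, |z.2 k - (P ω k + z.1 * v ω k)| ≤ r) then (1 : ℝ≥0∞) else 0)) ^ q ≤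
    ENNReal.ofReal (C * g N * (N : ℝ) ^ (-(d : ℝ)) * (Fintype.card Ω : ℝ) ^ (q - 1 / (d : ℝ)))

theorem levE {d : ℕ} (hd : 1 ≤ d) {c : ℝ} (hc1 : 1 < c) (h : AllE d c) {ε : ℝ} (hε : 0 < ε) :
    ∃ C : ℝ, 0 ≤ C ∧
    ∀ (n : ℕ) (Ω : Type) [Fintype Ω] [Nonempty Ω] (A D : Ω → Fin d → ℝ), IsFam n D →
    ∀ (F : Finset (Fin n × (Fin d → ℤ))) (m : ℝ), 1 ≤ m →
    (∀ x ∈ F, m ≤ mult A D x.1 x.2) →
    (F.card : ℝ) ≤ (C * (n : ℝ) ^ ε) * n * (Fintype.card Ω : ℝ) ^ (-(1 : ℝ) / d) *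
      ((Fintype.card Ω : ℝ) / m) ^ (1 + c / d) := by
  have hdq : (0 : ℝ) < d := by
    have : 0 < d := by omega
    exact_mod_cast this
  obtain ⟨C0, hC0, hS⟩ := h (d * ε) (by positivity)
  refine ⟨Real.exp (C0 / d), (Real.exp_pos _).le, ?_⟩
  intro n Ω _ _ A D hfam F m hm hF
  have hn : (1 : ℝ) ≤ n := by exact_mod_cast hfam.pos
  have hM : (1 : ℝ) ≤ (Fintype.card Ω : ℝ) := by exact_mod_cast Fintype.card_pos
  have hdp : (0 : ℝ) < d := by
    have : 0 < d := by omega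
    exact_mod_cast this
  rcases F.eq_empty_or_nonempty with hE | hE
  · rw [hE, Finset.card_empty, Nat.cast_zero]
    positivity
  obtain ⟨Inc, hInc⟩ : ∃ Inc : Finset (Ω × Fin n),
      Inc = Finset.univ.filter fun z : Ω × Fin n => (z.2, cell A D z.2 z.1) ∈ F := ⟨_, rfl⟩
  have hcard : m * F.card ≤ Inc.card := by
    have h1 : Inc.card = ∑ x ∈ F, mult A D x.1 x.2 := by
      have h0 := Finset.card_eq_sum_card_fiberwise
        (s := Finset.univ.filter fun z : Ω × Fin n => (z.2, cell A D z.2 z.1) ∈ F)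
        (f := fun z : Ω × Fin n => (z.2, cell A D z.2 z.1)) (t := F)
        (fun z hz => by simpa using hz)
      rw [hInc, h0]
      refine Finset.sum_congr rfl fun x hx => ?_
      unfold mult
      refine Finset.card_bij (fun z _ => z.1) ?_ ?_ ?_
      · intro z hz
        rw [Finset.mem_filter, Finset.mem_filter] at hz
        rw [Finset.mem_filter]
        refine ⟨Finset.mem_univ _, ?_⟩
        rw [← hz.2]
      · intro z hz z' hz' hzz
        rw [Finset.mem_filter] at hz hz'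
        have e1 := congrArg Prod.fst (hz.2.trans hz'.2.symm)
        exact Prod.ext hzz e1
      · intro w hw
        rw [Finset.mem_filter] at hw
        refine ⟨(w, x.1), ?_, rfl⟩
        rw [Finset.mem_filter, Finset.mem_filter]
        have e1 : (x.1, cell A D x.1 w) = x := by rw [hw.2]
        exact ⟨⟨Finset.mem_univ _, by rw [e1]; exact hx⟩, e1⟩
    rw [h1, mul_comm]
    push_cast
    rw [← nsmul_eq_mul]
    exact Finset.card_nsmul_le_sum F _ m hF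
  have hFc : (0 : ℝ) < F.card := by exact_mod_cast hE.card_pos
  have hIc : (0 : ℝ) < Inc.card := lt_of_lt_of_le (by positivity) hcard
  have hIne : Inc.Nonempty := by
    rw [← Finset.card_pos]
    exact_mod_cast hIc
  obtain ⟨p, hlaw, hp, hid⟩ := Pool.Agent.W372.HM.H_id_unif Inc hIne
  have hmain := hS n Ω A D hfam p hlaw
  have hmi : 0 ≤ mi p := by
    unfold mi
    have h1 : H p id ≤ H p Prod.fst + H p Prod.snd :=
      subadd hlaw (f := (Prod.fst : Ω × Fin n → Ω)) (g := (Prod.snd : Ω × Fin n → Fin n))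
        (fun _ _ _ _ h => h)
    linarith
  have hJ : H p (fun z => (z.2, cell A D z.2 z.1)) ≤ Real.log F.card := by
    refine H_le_log_card hlaw _ F fun z hz => ?_
    have : z ∈ Inc := hp z hz
    rw [hInc, Finset.mem_filter] at this
    exact this.2
  have hh1 : H p Prod.fst ≤ Real.log (Fintype.card Ω) := by
    have := H_le_log_card hlaw (Prod.fst : Ω × Fin n → Ω) Finset.univ
      (fun _ _ => Finset.mem_univ _)
    rwa [Finset.card_univ] at this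
  have hi : Real.log m + Real.log F.card ≤ Real.log Inc.card := by
    rw [← Real.log_mul (by positivity) (by positivity)]
    exact Real.log_le_log (by positivity) hcard
  unfold aa hh mi lam at hmain
  unfold mi at hmi
  rw [hid] at hmain hmi
  obtain ⟨J, hJ'⟩ : ∃ J, J = H p (fun z => (z.2, cell A D z.2 z.1)) := ⟨_, rfl⟩
  obtain ⟨a, ha'⟩ : ∃ a, a = H p Prod.fst := ⟨_, rfl⟩
  obtain ⟨s, hs'⟩ : ∃ s, s = H p (Prod.snd : Ω × Fin n → Fin n) := ⟨_, rfl⟩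
  obtain ⟨i, hi'⟩ : ∃ i, i = Real.log Inc.card := ⟨_, rfl⟩
  obtain ⟨f, hf'⟩ : ∃ f, f = Real.log F.card := ⟨_, rfl⟩
  obtain ⟨LM, hLM⟩ : ∃ LM, LM = Real.log (Fintype.card Ω) := ⟨_, rfl⟩
  obtain ⟨Lm, hLm⟩ : ∃ Lm, Lm = Real.log m := ⟨_, rfl⟩
  obtain ⟨Ln, hLn⟩ : ∃ Ln, Ln = Real.log n := ⟨_, rfl⟩
  rw [← hJ', ← ha', ← hs', ← hi', ← hLn] at hmain
  rw [← ha', ← hs', ← hi'] at hmi
  rw [← hJ', ← hf'] at hJ
  rw [← ha', ← hLM] at hh1
  rw [← hLm, ← hf', ← hi'] at hi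
  have hd1 : (1 : ℝ) ≤ d := by exact_mod_cast hd
  have hfin : d * f ≤ d * Ln - LM + (d + c) * (LM - Lm) + (d * ε * Ln + C0) := by
    have e1 : 0 ≤ ((d : ℝ) + c) * (i - (Lm + f)) :=
      mul_nonneg (by linarith) (by linarith)
    have e2 : 0 ≤ ((d : ℝ) + c - 1) * (LM - a) :=
      mul_nonneg (by linarith) (by linarith)
    have e3 : 0 ≤ c * (f - J) := mul_nonneg (by linarith) (by linarith)
    have e4 : 0 ≤ (c - 1) * (s - (i - a)) := mul_nonneg (by linarith) hmi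
    nlinarith
  have hfin2 : f ≤ C0 / d + Ln * ε + Ln + (-(1 : ℝ) / d) * LM + (1 + c / d) * (LM - Lm) := by
    have e1 : C0 / d + Ln * ε + Ln + (-(1 : ℝ) / d) * LM + (1 + c / d) * (LM - Lm) =
        (d * Ln - LM + (d + c) * (LM - Lm) + (d * ε * Ln + C0)) / d := by
      field_simp
      ring
    rw [e1, le_div_iff₀ hdp]
    linarith
  have hM0 : (0 : ℝ) < (Fintype.card Ω : ℝ) := by linarith
  have hm0 : 0 < m := by linarith
  have hn0 : (0 : ℝ) < n := by linarith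
  calc (F.card : ℝ) = Real.exp f := by rw [hf', Real.exp_log hFc]
    _ ≤ Real.exp (C0 / d + Ln * ε + Ln + (-(1 : ℝ) / d) * LM + (1 + c / d) * (LM - Lm)) :=
        Real.exp_le_exp.2 hfin2
    _ = (Real.exp (C0 / d) * (n : ℝ) ^ ε) * n * (Fintype.card Ω : ℝ) ^ (-(1 : ℝ) / d) *
        ((Fintype.card Ω : ℝ) / m) ^ (1 + c / (d : ℝ)) := by
        rw [Real.exp_add, Real.exp_add, Real.exp_add, Real.exp_add, Real.rpow_def_of_pos hn0,
          hLn, Real.exp_log hn0,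
          Real.rpow_def_of_pos hM0, Real.rpow_def_of_pos (div_pos hM0 hm0),
          Real.log_div hM0.ne' hm0.ne', ← hLM, ← hLm, mul_comm LM, mul_comm (LM - Lm)]

/-- Number of dyadic levels. -/
lemma levels (d : ℕ) {ε : ℝ} (hε : 0 < ε) : ∃ C : ℝ, 0 ≤ C ∧ ∀ (n M : ℕ), 1 ≤ n → 1 ≤ M →
    (M : ℝ) ≤ (2 * (n : ℝ)) ^ d → ((Nat.log 2 M : ℕ) : ℝ) + 1 ≤ C * (n : ℝ) ^ ε := by
  refine ⟨2 * d * (1 / ε) + (2 * d + 1), by positivity, ?_⟩
  intro n M hn hM hMn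
  have hn1 : (1 : ℝ) ≤ n := by exact_mod_cast hn
  have hM1 : (1 : ℝ) ≤ M := by exact_mod_cast hM
  have h1 : ((Nat.log 2 M : ℕ) : ℝ) * Real.log 2 ≤ Real.log M := by
    have h2 : ((2 ^ Nat.log 2 M : ℕ) : ℝ) ≤ M := by
      exact_mod_cast Nat.pow_log_le_self 2 (by omega)
    have h3 := Real.log_le_log (by positivity) h2
    push_cast at h3
    rwa [Real.log_pow] at h3
  have h4 : Real.log M ≤ d * (Real.log 2 + Real.log n) := by
    have h5 := Real.log_le_log (by linarith) hMn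
    rwa [Real.log_pow, Real.log_mul (by norm_num) (by linarith)] at h5
  have h6 : Real.log n ≤ (n : ℝ) ^ ε / ε := Real.log_le_rpow_div (by linarith) hε
  have h7 : (1 : ℝ) ≤ (n : ℝ) ^ ε := Real.one_le_rpow hn1 hε.le
  have h8 := Real.log_two_gt_d9
  have h9 := Real.log_two_lt_d9
  have h10 : ((Nat.log 2 M : ℕ) : ℝ) ≤ 2 * Real.log M := by
    have h11 : (0 : ℝ) ≤ ((Nat.log 2 M : ℕ) : ℝ) := Nat.cast_nonneg _
    nlinarith
  have h12 : (d : ℝ) * Real.log n ≤ d * ((n : ℝ) ^ ε / ε) :=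
    mul_le_mul_of_nonneg_left h6 (Nat.cast_nonneg _)
  have h13 : (d : ℝ) * Real.log 2 ≤ d * 1 :=
    mul_le_mul_of_nonneg_left (by linarith) (Nat.cast_nonneg _)
  calc ((Nat.log 2 M : ℕ) : ℝ) + 1 ≤ 2 * (d * Real.log 2 + d * Real.log n) + 1 := by linarith
    _ ≤ 2 * (d * 1 + d * ((n : ℝ) ^ ε / ε)) + 1 := by linarith
    _ = 2 * d * (1 / ε) * (n : ℝ) ^ ε + (2 * d + 1) * 1 := by ring
    _ ≤ 2 * d * (1 / ε) * (n : ℝ) ^ ε + (2 * d + 1) * (n : ℝ) ^ ε := by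
        have : (0 : ℝ) ≤ 2 * d + 1 := by positivity
        nlinarith
    _ = _ := by ring

theorem momE {d : ℕ} (hd : 1 ≤ d) {c : ℝ} (hc1 : 1 < c) (h : AllE d c) {ε : ℝ} (hε : 0 < ε) :
    ∃ C : ℝ, 0 ≤ C ∧ MomG d (1 + c / d) (fun n => C * (n : ℝ) ^ ε) := by
  obtain ⟨C0, hC0, hL⟩ := levE hd hc1 h (half_pos hε)
  obtain ⟨C1, hC1, hLev⟩ := levels d (half_pos hε)
  have hdp : (0 : ℝ) < d := by
    have : 0 < d := by omega
    exact_mod_cast this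
  obtain ⟨q, hq⟩ : ∃ q : ℝ, q = 1 + c / (d : ℝ) := ⟨_, rfl⟩
  have hq0 : 0 < q := by
    have : (0 : ℝ) < c / (d : ℝ) := div_pos (by linarith) hdp
    linarith
  rw [← hq] at hL ⊢
  refine ⟨C0 * C1 * 2 ^ q, by positivity, ?_⟩
  intro n Ω _ _ A D hfam F
  have hn : 1 ≤ n := hfam.pos
  have hn0 : (0 : ℝ) < n := by exact_mod_cast hn
  have hM : (1 : ℝ) ≤ (Fintype.card Ω : ℝ) := by exact_mod_cast Fintype.card_pos
  have hM0 : (0 : ℝ) < (Fintype.card Ω : ℝ) := by linarith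
  obtain ⟨μ, hμ⟩ : ∃ μ : Fin n × (Fin d → ℤ) → ℕ, μ = fun x => mult A D x.1 x.2 := ⟨_, rfl⟩
  obtain ⟨K, hK⟩ : ∃ K, K = Nat.log 2 (Fintype.card Ω) := ⟨_, rfl⟩
  have hμM : ∀ x, μ x ≤ Fintype.card Ω := by
    intro x
    rw [hμ]
    exact Finset.card_le_univ _
  obtain ⟨F', hF'⟩ : ∃ F', F' = F.filter fun x => 1 ≤ μ x := ⟨_, rfl⟩
  have h1 : ∑ x ∈ F, ((mult A D x.1 x.2 : ℕ) : ℝ) ^ q = ∑ x ∈ F', ((μ x : ℕ) : ℝ) ^ q := by
    rw [hF', Finset.sum_filter]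
    refine Finset.sum_congr rfl fun x _ => ?_
    split_ifs with hx
    · rw [hμ]
    · have : μ x = 0 := by omega
      have h2 : mult A D x.1 x.2 = μ x := by rw [hμ]
      rw [h2, this, Nat.cast_zero, Real.zero_rpow hq0.ne']
  have h2 : ∀ x ∈ F', ((μ x : ℕ) : ℝ) ^ q ≤ 2 ^ q * ((2 : ℝ) ^ q) ^ (Nat.log 2 (μ x)) := by
    intro x hx
    have h3 : μ x < 2 ^ (Nat.log 2 (μ x) + 1) := Nat.lt_pow_succ_log_self (by norm_num) _
    have h4 : ((μ x : ℕ) : ℝ) ≤ 2 ^ (Nat.log 2 (μ x) + 1) := by exact_mod_cast h3.le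
    calc ((μ x : ℕ) : ℝ) ^ q ≤ ((2 : ℝ) ^ (Nat.log 2 (μ x) + 1)) ^ q :=
          Real.rpow_le_rpow (by positivity) h4 hq0.le
      _ = 2 ^ q * ((2 : ℝ) ^ q) ^ (Nat.log 2 (μ x)) := by
          rw [pow_succ, mul_comm, Real.mul_rpow (by positivity) (by positivity),
            ← Real.rpow_natCast, ← Real.rpow_natCast, ← Real.rpow_mul (by norm_num),
            ← Real.rpow_mul (by norm_num), mul_comm (Nat.log 2 (μ x) : ℝ) q]
  have h3 : ∀ x ∈ F', Nat.log 2 (μ x) ∈ Finset.range (K + 1) := by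
    intro x _
    rw [Finset.mem_range, hK]
    exact Nat.lt_succ_of_le (Nat.log_mono_right (hμM x))
  have h4 : ∀ k ∈ Finset.range (K + 1),
      ((F'.filter fun x => Nat.log 2 (μ x) = k).card : ℝ) ≤
        (C0 * (n : ℝ) ^ (ε / 2)) * n * (Fintype.card Ω : ℝ) ^ (-(1 : ℝ) / d) *
          ((Fintype.card Ω : ℝ) / 2 ^ k) ^ q := by
    intro k _
    refine hL n Ω A D hfam _ (2 ^ k) (one_le_pow₀ (by norm_num)) ?_
    intro x hx
    rw [Finset.mem_filter, hF', Finset.mem_filter] at hx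
    have h5 : 2 ^ k ≤ μ x := by
      rw [← hx.2]
      exact Nat.pow_log_le_self 2 (by omega)
    have h6 : mult A D x.1 x.2 = μ x := by rw [hμ]
    rw [h6]
    exact_mod_cast h5
  have hlev : (K : ℝ) + 1 ≤ C1 * (n : ℝ) ^ (ε / 2) := by
    rw [hK]
    refine hLev n _ hn (by exact_mod_cast hM) ?_
    have := Pool.Agent.W975.HD.all_card D hfam Finset.univ
    rwa [Finset.card_univ] at this
  rw [h1]
  calc ∑ x ∈ F', ((μ x : ℕ) : ℝ) ^ q
      ≤ ∑ x ∈ F', 2 ^ q * ((2 : ℝ) ^ q) ^ (Nat.log 2 (μ x)) := Finset.sum_le_sum h2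
    _ = ∑ k ∈ Finset.range (K + 1), ∑ x ∈ F' with Nat.log 2 (μ x) = k,
          2 ^ q * ((2 : ℝ) ^ q) ^ (Nat.log 2 (μ x)) :=
        (Finset.sum_fiberwise_of_maps_to h3 _).symm
    _ = ∑ k ∈ Finset.range (K + 1), ((F'.filter fun x => Nat.log 2 (μ x) = k).card : ℝ) *
          (2 ^ q * ((2 : ℝ) ^ q) ^ k) := by
        refine Finset.sum_congr rfl fun k _ => ?_
        rw [← nsmul_eq_mul, ← Finset.sum_const]
        refine Finset.sum_congr rfl fun x hx => ?_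
        rw [(Finset.mem_filter.1 hx).2]
    _ ≤ ∑ k ∈ Finset.range (K + 1), ((C0 * (n : ℝ) ^ (ε / 2)) * n *
          (Fintype.card Ω : ℝ) ^ (-(1 : ℝ) / d) *
          ((Fintype.card Ω : ℝ) / 2 ^ k) ^ q) * (2 ^ q * ((2 : ℝ) ^ q) ^ k) := by
        refine Finset.sum_le_sum fun k hk => ?_
        exact mul_le_mul_of_nonneg_right (h4 k hk) (by positivity)
    _ = ∑ k ∈ Finset.range (K + 1), ((C0 * (n : ℝ) ^ (ε / 2)) * n *
          (Fintype.card Ω : ℝ) ^ (-(1 : ℝ) / d) * (Fintype.card Ω : ℝ) ^ q * 2 ^ q) := by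
        refine Finset.sum_congr rfl fun k _ => ?_
        have e1 : ((Fintype.card Ω : ℝ) / 2 ^ k) ^ q * ((2 : ℝ) ^ q) ^ k =
            (Fintype.card Ω : ℝ) ^ q := by
          have e2 : ((2 : ℝ) ^ q) ^ k = ((2 : ℝ) ^ k) ^ q := by
            rw [← Real.rpow_natCast, ← Real.rpow_natCast, ← Real.rpow_mul (by norm_num),
              ← Real.rpow_mul (by norm_num), mul_comm]
          rw [e2, ← Real.mul_rpow (by positivity) (by positivity),
            div_mul_cancel₀ _ (by positivity)]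
        calc ((C0 * (n : ℝ) ^ (ε / 2)) * n * (Fintype.card Ω : ℝ) ^ (-(1 : ℝ) / d) *
              ((Fintype.card Ω : ℝ) / 2 ^ k) ^ q) * (2 ^ q * ((2 : ℝ) ^ q) ^ k)
            = (C0 * (n : ℝ) ^ (ε / 2)) * n * (Fintype.card Ω : ℝ) ^ (-(1 : ℝ) / d) * 2 ^ q *
              (((Fintype.card Ω : ℝ) / 2 ^ k) ^ q * ((2 : ℝ) ^ q) ^ k) := by ring
          _ = _ := by
            rw [e1]
            ring
    _ = ((K : ℝ) + 1) * ((C0 * (n : ℝ) ^ (ε / 2)) * n *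
          (Fintype.card Ω : ℝ) ^ (-(1 : ℝ) / d) * (Fintype.card Ω : ℝ) ^ q * 2 ^ q) := by
        rw [Finset.sum_const, Finset.card_range, nsmul_eq_mul]
        push_cast
        ring
    _ ≤ (C1 * (n : ℝ) ^ (ε / 2)) * ((C0 * (n : ℝ) ^ (ε / 2)) * n *
          (Fintype.card Ω : ℝ) ^ (-(1 : ℝ) / d) * (Fintype.card Ω : ℝ) ^ q * 2 ^ q) :=
        mul_le_mul_of_nonneg_right hlev (by positivity)
    _ = (C0 * C1 * 2 ^ q * ((n : ℝ) ^ (ε / 2) * (n : ℝ) ^ (ε / 2))) * n *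
          ((Fintype.card Ω : ℝ) ^ (-(1 : ℝ) / d) * (Fintype.card Ω : ℝ) ^ q) := by ring
    _ = (C0 * C1 * 2 ^ q * (n : ℝ) ^ ε) * n * (Fintype.card Ω : ℝ) ^ (q - 1 / (d : ℝ)) := by
        rw [← Real.rpow_add hM0, ← Real.rpow_add hn0]
        congr 2
        · congr 2
          ring
        · ring

theorem winG {d : ℕ} (hd : 1 ≤ d) {q : ℝ} (hq1 : 1 < q) {g : ℕ → ℝ} (hg : ∀ n, 0 ≤ g n)
    (hM : MomG d q g) : WinG d q g := by
  intro R hR
  have hd0 : (0 : ℝ) < d := by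
    have : (1 : ℝ) ≤ d := by exact_mod_cast hd
    linarith
  have hq0 : 0 < q := by linarith
  have hqd : 0 < q - 1 / (d : ℝ) := by
    have h1 : 1 / (d : ℝ) ≤ 1 := by
      rw [div_le_one hd0]
      exact_mod_cast hd
    linarith
  set K : ℕ := ⌈R + 3⌉₊ with hKdef
  have hK : R + 3 ≤ K := Nat.le_ceil _
  set O : Finset (Fin d → ℤ) := Pool.Agent.W22.HM.Off d K with hO
  refine ⟨(O.card : ℝ) ^ (q + 1) * 2 ^ d, by positivity, ?_⟩
  intro N Ω _ P v t0 r hN hr hNr hv hinj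
  have hN0 : (0 : ℝ) < N := by exact_mod_cast hN
  have hgN := hg N
  rcases isEmpty_or_nonempty Ω with hE | hE
  · refine le_trans (le_of_eq ?_) (zero_le)
    simp only [Finset.univ_eq_empty, Finset.sum_empty, ENNReal.zero_rpow_of_pos hq0]
    exact lintegral_zero
  set D : Ω → Fin d → ℝ := fun ω k => (v ω k + 1) / 2 with hD
  set A : Ω → Fin d → ℝ := fun ω k => (N : ℝ) * (P ω k + t0 * v ω k) / 2 with hA
  have hfam : IsFam N D := by
    refine ⟨hN, fun ω i => ?_, fun ω i => ?_, hinj⟩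
    · have := abs_le.1 (hv ω i)
      simp only [hD]
      linarith
    · have := abs_le.1 (hv ω i)
      simp only [hD]
      linarith
  set F : Finset (Fin N × (Fin d → ℤ)) :=
    Finset.univ.image fun x : Fin N × Ω => (x.1, cell A D x.1 x.2) with hF
  have hMF := hM N Ω A D hfam F
  -- the pointwise bound
  have hpt : ∀ z ∈ Set.Ico t0 (t0 + 1) ×ˢ (Set.univ : Set (Fin d → ℝ)),
      (∑ ω, (if (∀ k, |z.2 k - (P ω k + z.1 * v ω k)| ≤ r) then (1 : ℝ≥0∞) else 0)) ^ q ≤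
      ∑ o ∈ O, ∑ x ∈ F, ((O.card : ℝ≥0∞) ^ q * ((mult A D x.1 x.2 : ℕ) : ℝ≥0∞) ^ q) *
        (Pool.Agent.W22.HM.Bx N t0 x.1 (x.2 - o)).indicator 1 z := by
    rintro ⟨t, y⟩ hz
    have ht : t0 ≤ t ∧ t < t0 + 1 := by
      have := hz.1
      exact this
    have hnn : 0 ≤ (N : ℝ) * (t - t0) := mul_nonneg hN0.le (by linarith [ht.1])
    have hlt : ⌊(N : ℝ) * (t - t0)⌋₊ < N := by
      rw [Nat.floor_lt hnn]
      have : t - t0 < 1 := by linarith [ht.2]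
      nlinarith
    set j : Fin N := ⟨⌊(N : ℝ) * (t - t0)⌋₊, hlt⟩ with hj
    have hj1 : ((j : ℕ) : ℝ) ≤ N * (t - t0) := Nat.floor_le hnn
    have hj2 : N * (t - t0) < ((j : ℕ) : ℝ) + 1 := Nat.lt_floor_add_one _
    set c : Fin d → ℤ := fun k => ⌊(N : ℝ) * (y k + (t - t0)) / 2⌋ with hc
    have hzB : (t, y) ∈ Pool.Agent.W22.HM.Bx N t0 j c := by
      refine ⟨⟨?_, ?_⟩, fun k => ⟨?_, ?_⟩⟩
      · have : ((j : ℕ) : ℝ) / N ≤ t - t0 := by
          rw [div_le_iff₀ hN0]; linarith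
        simp only
        linarith
      · have : t - t0 < (((j : ℕ) : ℝ) + 1) / N := by
          rw [lt_div_iff₀ hN0]; linarith
        simp only
        linarith
      · have h1 : (c k : ℝ) ≤ (N : ℝ) * (y k + (t - t0)) / 2 := Int.floor_le _
        have h2 : 2 * (c k : ℝ) / N ≤ y k + (t - t0) := by
          rw [div_le_iff₀ hN0]; linarith
        simp only
        linarith
      · have h1 : (N : ℝ) * (y k + (t - t0)) / 2 < (c k : ℝ) + 1 := Int.lt_floor_add_one _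
        have h2 : y k + (t - t0) < 2 * ((c k : ℝ) + 1) / N := by
          rw [lt_div_iff₀ hN0]; linarith
        simp only
        linarith
    have h1 : (∑ ω, (if (∀ k, |y k - (P ω k + t * v ω k)| ≤ r) then (1 : ℝ≥0∞) else 0)) ≤
        ∑ o ∈ O, ((mult A D j (c + o) : ℕ) : ℝ≥0∞) := by
      have h2 : ∀ ω, (if (∀ k, |y k - (P ω k + t * v ω k)| ≤ r) then (1 : ℝ≥0∞) else 0) ≤
          ∑ o ∈ O, if cell A D j ω = c + o then (1 : ℝ≥0∞) else 0 := by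
        intro ω
        split_ifs with hω
        · have h3 : cell A D j ω - c ∈ O := by
            rw [hO, Pool.Agent.W22.HM.Off, Fintype.mem_piFinset]
            intro k
            rw [Finset.mem_Icc, ← abs_le]
            exact Pool.Agent.W22.HM.cell_near hN hNr hK (hv ω k) hj1 hj2 (hω k)
          refine le_trans ?_ (Finset.single_le_sum
            (f := fun o => if cell A D j ω = c + o then (1 : ℝ≥0∞) else 0)
            (fun _ _ => zero_le) h3)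
          simp
        · exact zero_le
      refine (Finset.sum_le_sum fun ω _ => h2 ω).trans (le_of_eq ?_)
      rw [Finset.sum_comm]
      refine Finset.sum_congr rfl fun o _ => ?_
      rw [Finset.sum_boole]
      rfl
    have h3 : ∀ o ∈ O, ((mult A D j (c + o) : ℕ) : ℝ≥0∞) ^ q ≤
        ∑ x ∈ F, ((mult A D x.1 x.2 : ℕ) : ℝ≥0∞) ^ q *
          (Pool.Agent.W22.HM.Bx N t0 x.1 (x.2 - o)).indicator 1 (t, y) := by
      intro o _
      rcases Nat.eq_zero_or_pos (mult A D j (c + o)) with h0 | h0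
      · rw [h0, Nat.cast_zero, ENNReal.zero_rpow_of_pos hq0]
        exact zero_le
      · have h4 : (j, c + o) ∈ F := by
          unfold mult at h0
          rw [gt_iff_lt, Finset.card_pos] at h0
          obtain ⟨ω, hω⟩ := h0
          rw [Finset.mem_filter] at hω
          rw [hF, Finset.mem_image]
          exact ⟨(j, ω), Finset.mem_univ _, by rw [← hω.2]⟩
        refine le_trans ?_ (Finset.single_le_sum
          (f := fun x : Fin N × (Fin d → ℤ) => ((mult A D x.1 x.2 : ℕ) : ℝ≥0∞) ^ q *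
            (Pool.Agent.W22.HM.Bx N t0 x.1 (x.2 - o)).indicator 1 (t, y)) (fun _ _ => zero_le) h4)
        simp only [add_sub_cancel_right]
        rw [Set.indicator_of_mem hzB, Pi.one_apply, mul_one]
    calc (∑ ω, (if (∀ k, |y k - (P ω k + t * v ω k)| ≤ r) then (1 : ℝ≥0∞) else 0)) ^ q
        ≤ (∑ o ∈ O, ((mult A D j (c + o) : ℕ) : ℝ≥0∞)) ^ q := ENNReal.rpow_le_rpow h1 hq0.le
      _ ≤ (O.card : ℝ≥0∞) ^ q * ∑ o ∈ O, ((mult A D j (c + o) : ℕ) : ℝ≥0∞) ^ q :=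
          Pool.Agent.W22.HM.pow_sum_le O _ hq0
      _ ≤ (O.card : ℝ≥0∞) ^ q * ∑ o ∈ O, ∑ x ∈ F, ((mult A D x.1 x.2 : ℕ) : ℝ≥0∞) ^ q *
          (Pool.Agent.W22.HM.Bx N t0 x.1 (x.2 - o)).indicator 1 (t, y) := by
          gcongr with o ho
          exact h3 o ho
      _ = _ := by
          rw [Finset.mul_sum]
          refine Finset.sum_congr rfl fun o _ => ?_
          rw [Finset.mul_sum]
          refine Finset.sum_congr rfl fun x _ => ?_
          rw [mul_assoc]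
  have hWm : MeasurableSet (Set.Ico t0 (t0 + 1) ×ˢ (Set.univ : Set (Fin d → ℝ))) :=
    measurableSet_Ico.prod MeasurableSet.univ
  refine (setLIntegral_mono' hWm hpt).trans ?_
  refine (setLIntegral_le_lintegral _ _).trans ?_
  have hmeas : ∀ (o : Fin d → ℤ) (x : Fin N × (Fin d → ℤ)), Measurable fun z =>
      ((O.card : ℝ≥0∞) ^ q * ((mult A D x.1 x.2 : ℕ) : ℝ≥0∞) ^ q) *
        (Pool.Agent.W22.HM.Bx N t0 x.1 (x.2 - o)).indicator (1 : ℝ × (Fin d → ℝ) → ℝ≥0∞) z := by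
    intro o x
    exact (measurable_one.indicator (Pool.Agent.W22.HM.Bx_meas _ _ _ _)).const_mul _
  rw [lintegral_finsetSum _ fun o _ => Finset.measurable_sum _ fun x _ => hmeas o x]
  have hint : ∀ o ∈ O, ∫⁻ z, ∑ x ∈ F, ((O.card : ℝ≥0∞) ^ q *
      ((mult A D x.1 x.2 : ℕ) : ℝ≥0∞) ^ q) * (Pool.Agent.W22.HM.Bx N t0 x.1 (x.2 - o)).indicator 1 z ≤
      (O.card : ℝ≥0∞) ^ q * ENNReal.ofReal (2 ^ d * (N : ℝ) ^ (-((d : ℝ) + 1))) *
        ∑ x ∈ F, ((mult A D x.1 x.2 : ℕ) : ℝ≥0∞) ^ q := by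
    intro o _
    rw [lintegral_finsetSum _ fun x _ => hmeas o x, Finset.mul_sum]
    refine Finset.sum_le_sum fun x _ => ?_
    rw [lintegral_const_mul _ (measurable_one.indicator (Pool.Agent.W22.HM.Bx_meas _ _ _ _)),
      lintegral_indicator_one (Pool.Agent.W22.HM.Bx_meas _ _ _ _)]
    calc (O.card : ℝ≥0∞) ^ q * ((mult A D x.1 x.2 : ℕ) : ℝ≥0∞) ^ q *
          volume (Pool.Agent.W22.HM.Bx N t0 x.1 (x.2 - o))
        ≤ (O.card : ℝ≥0∞) ^ q * ((mult A D x.1 x.2 : ℕ) : ℝ≥0∞) ^ q *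
          ENNReal.ofReal (2 ^ d * (N : ℝ) ^ (-((d : ℝ) + 1))) := by
          gcongr
          exact Pool.Agent.W22.HM.Bx_vol hN _ _ _
      _ = _ := by ring
  refine (Finset.sum_le_sum hint).trans ?_
  rw [Finset.sum_const, nsmul_eq_mul]
  have hsum : ∑ x ∈ F, ((mult A D x.1 x.2 : ℕ) : ℝ≥0∞) ^ q =
      ENNReal.ofReal (∑ x ∈ F, ((mult A D x.1 x.2 : ℕ) : ℝ) ^ q) := by
    rw [ENNReal.ofReal_sum_of_nonneg fun x _ => by positivity]
    refine Finset.sum_congr rfl fun x _ => ?_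
    rw [← ENNReal.ofReal_rpow_of_nonneg (Nat.cast_nonneg _) hq0.le, ENNReal.ofReal_natCast]
  have hOc : (O.card : ℝ≥0∞) ^ q = ENNReal.ofReal ((O.card : ℝ) ^ q) := by
    rw [← ENNReal.ofReal_rpow_of_nonneg (Nat.cast_nonneg _) hq0.le, ENNReal.ofReal_natCast]
  rw [hsum, hOc, ← ENNReal.ofReal_natCast, ← ENNReal.ofReal_mul (by positivity),
    ← ENNReal.ofReal_mul (by positivity), ← ENNReal.ofReal_mul (by positivity)]
  refine ENNReal.ofReal_le_ofReal ?_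
  have hNpow : (N : ℝ) ^ (-((d : ℝ) + 1)) * N = (N : ℝ) ^ (-(d : ℝ)) := by
    have : (N : ℝ) ^ (-(d : ℝ)) = (N : ℝ) ^ (-((d : ℝ) + 1) + 1) := by
      congr 1
      ring
    rw [this, Real.rpow_add hN0, Real.rpow_one]
  calc (O.card : ℝ) * ((O.card : ℝ) ^ q * (2 ^ d * (N : ℝ) ^ (-((d : ℝ) + 1))) *
        ∑ x ∈ F, ((mult A D x.1 x.2 : ℕ) : ℝ) ^ q)
      ≤ (O.card : ℝ) * ((O.card : ℝ) ^ q * (2 ^ d * (N : ℝ) ^ (-((d : ℝ) + 1))) *
        (g N * N * (Fintype.card Ω : ℝ) ^ (q - 1 / (d : ℝ)))) := by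
        gcongr
    _ = ((O.card : ℝ) ^ q * O.card) * 2 ^ d * g N * ((N : ℝ) ^ (-((d : ℝ) + 1)) * N) *
        (Fintype.card Ω : ℝ) ^ (q - 1 / (d : ℝ)) := by ring
    _ = _ := by
        rw [hNpow]
        congr 4
        rcases Nat.eq_zero_or_pos O.card with h0 | h0
        · rw [h0, Nat.cast_zero, mul_zero, Real.zero_rpow (by linarith)]
        · rw [Real.rpow_add (by exact_mod_cast h0), Real.rpow_one]

theorem allwG {d : ℕ} (hd : 1 ≤ d) {q : ℝ} (hq : 1 + 1 / (d : ℝ) ≤ q) {g : ℕ → ℝ}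
    (hg : ∀ n, 0 ≤ g n) (L : ℕ) (h : WinG d q g) : AllwG d q g L := by
  intro R hR
  obtain ⟨C, hC, hW⟩ := h R hR
  have hd0 : (0:ℝ) < d := by
    have : (1:ℝ) ≤ d := by exact_mod_cast hd
    linarith
  have hs : 1 ≤ q - 1/(d:ℝ) := by linarith
  have hq0 : 0 < q := by
    have : (0:ℝ) < 1 / d := by positivity
    linarith
  refine ⟨(2 * L + 3) * C, by positivity, ?_⟩
  intro N Ω _ P v b r hN hr hNr hv hsep
  set s : ℝ := q - 1/(d:ℝ) with hsdef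
  set K : ℝ := (Fintype.card Ω : ℝ) with hK
  have hK0 : 0 ≤ K := by rw [hK]; positivity
  have hN0 : (0:ℝ) < N := by exact_mod_cast hN
  have hgN := hg N
  have hA0 : 0 ≤ C * g N * (N:ℝ)^(-(d:ℝ)) := by positivity
  have hwin : ∀ w : ℤ, ∫⁻ z : ℝ × (Fin d → ℝ) in
      Set.Ico (w:ℝ) (w+1) ×ˢ (Set.univ : Set (Fin d → ℝ)),
      (∑ ω, (if (|z.1 - b ω| ≤ L ∧ ∀ k, |z.2 k - (P ω k + z.1 * v ω k)| ≤ r)
        then (1:ℝ≥0∞) else 0)) ^ q ≤
      ENNReal.ofReal (C * g N * (N:ℝ)^(-(d:ℝ)) * K^(s-1)) *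
        ∑ ω : Ω, (if |⌊b ω⌋ - w| ≤ L + 1 then (1:ℝ≥0∞) else 0) := by
    intro w
    have h1 := hW N {ω : Ω // |⌊b ω⌋ - w| ≤ L + 1} (fun ω => P ω.1) (fun ω => v ω.1) (w:ℝ) r hN hr hNr
      (fun ω k => hv ω.1 k) (fun ω ω' hh => Subtype.ext (hsep ω.1 ω'.1 hh))
    have hcard : (Fintype.card {ω : Ω // |⌊b ω⌋ - w| ≤ L + 1} : ℝ) =
        ((Finset.univ.filter (fun ω : Ω => |⌊b ω⌋ - w| ≤ L + 1)).card : ℝ) := by
      rw [Fintype.card_subtype]
    have h2 : ∫⁻ z : ℝ × (Fin d → ℝ) in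
      Set.Ico (w:ℝ) (w+1) ×ˢ (Set.univ : Set (Fin d → ℝ)),
      (∑ ω, (if (|z.1 - b ω| ≤ L ∧ ∀ k, |z.2 k - (P ω k + z.1 * v ω k)| ≤ r)
        then (1:ℝ≥0∞) else 0)) ^ q ≤
      ∫⁻ z : ℝ × (Fin d → ℝ) in
      Set.Ico (w:ℝ) (w+1) ×ˢ (Set.univ : Set (Fin d → ℝ)),
      (∑ ω : {ω : Ω // |⌊b ω⌋ - w| ≤ L + 1}, (if (∀ k, |z.2 k - (P ω.1 k + z.1 * v ω.1 k)| ≤ r)
        then (1:ℝ≥0∞) else 0)) ^ q := by
      apply setLIntegral_mono'
      · exact measurableSet_Ico.prod MeasurableSet.univ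
      · intro z hz
        have hz1 : (w:ℝ) ≤ z.1 ∧ z.1 < w + 1 := by
          have := hz.1
          exact ⟨this.1, this.2⟩
        apply ENNReal.rpow_le_rpow _ hq0.le
        have e1 : ∑ ω : {ω : Ω // |⌊b ω⌋ - w| ≤ L + 1},
            (if (∀ k, |z.2 k - (P ω.1 k + z.1 * v ω.1 k)| ≤ r) then (1:ℝ≥0∞) else 0) =
            ∑ ω ∈ Finset.univ.filter (fun ω : Ω => |⌊b ω⌋ - w| ≤ L + 1),
            (if (∀ k, |z.2 k - (P ω k + z.1 * v ω k)| ≤ r) then (1:ℝ≥0∞) else 0) := by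
          rw [Finset.sum_subtype (Finset.univ.filter (fun ω : Ω => |⌊b ω⌋ - w| ≤ L + 1))
            (p := fun ω : Ω => |⌊b ω⌋ - w| ≤ L + 1) (fun x => by simp)]
        rw [e1, Finset.sum_filter]
        apply Finset.sum_le_sum
        intro ω _
        by_cases hc : |z.1 - b ω| ≤ L ∧ ∀ k, |z.2 k - (P ω k + z.1 * v ω k)| ≤ r
        · have hb := abs_le.1 hc.1
          have f1 := Int.floor_le (b ω)
          have f2 := Int.lt_floor_add_one (b ω)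
          have g1 : ((⌊b ω⌋ : ℤ) : ℝ) < ((w + (L + 1) : ℤ) : ℝ) := by push_cast; linarith
          have g2 : ((w - (L + 1) : ℤ) : ℝ) < ((⌊b ω⌋ : ℤ) : ℝ) := by push_cast; linarith
          have g1' : ⌊b ω⌋ < w + (L + 1) := by exact_mod_cast g1
          have g2' : w - (L + 1) < ⌊b ω⌋ := by exact_mod_cast g2
          have g3 : |⌊b ω⌋ - w| ≤ L + 1 := abs_le.2 ⟨by linarith, by linarith⟩
          rw [if_pos hc, if_pos g3, if_pos hc.2]
        · rw [if_neg hc]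
          exact bot_le
    refine h2.trans (h1.trans ?_)
    rw [hcard]
    set c : ℕ := (Finset.univ.filter (fun ω : Ω => |⌊b ω⌋ - w| ≤ L + 1)).card with hc
    have hcK : (c:ℝ) ≤ K := by
      rw [hK]; exact_mod_cast Finset.card_le_univ _
    have hsum : ∑ ω : Ω, (if |⌊b ω⌋ - w| ≤ L + 1 then (1:ℝ≥0∞) else 0) = (c : ℝ≥0∞) := by
      rw [← Finset.sum_filter, Finset.sum_const, hc]
      simp
    rw [hsum]
    have hc0 : (0:ℝ) ≤ c := Nat.cast_nonneg _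
    have e2 : (c : ℝ≥0∞) = ENNReal.ofReal (c:ℝ) := by simp
    rw [e2, ← ENNReal.ofReal_mul (by positivity)]
    apply ENNReal.ofReal_le_ofReal
    have e3 : (c:ℝ)^s ≤ K^(s-1) * c := by
      rcases hc0.eq_or_lt with h0 | h0
      · rw [← h0, Real.zero_rpow (by linarith)]; positivity
      · have : (c:ℝ)^s = (c:ℝ)^(s-1) * c := by
          rw [← Real.rpow_add_one h0.ne']; ring_nf
        rw [this]
        gcongr
    calc C * g N * (N:ℝ)^(-(d:ℝ)) * (c:ℝ)^s ≤ C * g N * (N:ℝ)^(-(d:ℝ)) * (K^(s-1) * c) := by gcongr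
      _ = C * g N * (N:ℝ)^(-(d:ℝ)) * K^(s-1) * c := by ring
  -- sum over the windows
  set F : ℝ × (Fin d → ℝ) → ℝ≥0∞ := fun z =>
    (∑ ω, (if (|z.1 - b ω| ≤ L ∧ ∀ k, |z.2 k - (P ω k + z.1 * v ω k)| ≤ r)
        then (1:ℝ≥0∞) else 0)) ^ q with hF
  have hU : (⋃ w : ℤ, Set.Ico (w:ℝ) (w+1) ×ˢ (Set.univ : Set (Fin d → ℝ))) = Set.univ := by
    ext z
    simp only [Set.mem_iUnion, Set.mem_prod, Set.mem_Ico, Set.mem_univ, and_true, iff_true]
    exact ⟨⌊z.1⌋, Int.floor_le _, Int.lt_floor_add_one _⟩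
  have hdis : Pairwise (Function.onFun Disjoint
      (fun w : ℤ => Set.Ico (w:ℝ) (w+1) ×ˢ (Set.univ : Set (Fin d → ℝ)))) := by
    intro w w' hww
    rw [Function.onFun, Set.disjoint_left]
    rintro z ⟨⟨h1, h2⟩, _⟩ ⟨⟨h3, h4⟩, _⟩
    apply hww
    have a1 : ((w:ℤ):ℝ) < ((w' + 1 : ℤ) : ℝ) := by push_cast; linarith
    have a2 : ((w':ℤ):ℝ) < ((w + 1 : ℤ) : ℝ) := by push_cast; linarith
    have a1' : w < w' + 1 := by exact_mod_cast a1
    have a2' : w' < w + 1 := by exact_mod_cast a2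
    omega
  have hsplit : ∫⁻ z : ℝ × (Fin d → ℝ), F z = ∑' w : ℤ, ∫⁻ z in
      Set.Ico (w:ℝ) (w+1) ×ˢ (Set.univ : Set (Fin d → ℝ)), F z := by
    rw [← lintegral_iUnion (fun w => measurableSet_Ico.prod MeasurableSet.univ) hdis, hU,
      Measure.restrict_univ]
  change ∫⁻ z : ℝ × (Fin d → ℝ), F z ≤ _
  rw [hsplit]
  refine (ENNReal.tsum_le_tsum hwin).trans ?_
  rw [ENNReal.tsum_mul_left]
  have hcount : ∑' w : ℤ, ∑ ω : Ω, (if |⌊b ω⌋ - w| ≤ L + 1 then (1:ℝ≥0∞) else 0) ≤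
      ENNReal.ofReal ((2 * L + 3) * K) := by
    rw [Summable.tsum_finsetSum (fun _ _ => ENNReal.summable)]
    have : ∀ ω : Ω, ∑' w : ℤ, (if |⌊b ω⌋ - w| ≤ L + 1 then (1:ℝ≥0∞) else 0) ≤ 2 * L + 3 := by
      intro ω
      rw [tsum_eq_sum (s := Finset.Icc (⌊b ω⌋ - (L + 1)) (⌊b ω⌋ + (L + 1)))]
      · refine (Finset.sum_le_sum (g := fun _ => (1:ℝ≥0∞)) ?_).trans ?_
        · intro w _
          split_ifs <;> simp
        · rw [Finset.sum_const, Int.card_Icc]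
          have : (⌊b ω⌋ + ((L : ℤ) + 1) + 1 - (⌊b ω⌋ - (L + 1))).toNat = 2 * L + 3 := by omega
          rw [this, nsmul_eq_mul, mul_one]; push_cast; exact le_rfl
      · intro w hw
        rw [if_neg]
        intro hh
        apply hw
        rw [Finset.mem_Icc]
        have := abs_le.1 hh
        constructor <;> linarith [this.1, this.2]
    refine (Finset.sum_le_sum (fun ω _ => this ω)).trans ?_
    have e : ENNReal.ofReal (2 * (L : ℝ) + 3) = 2 * L + 3 := by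
      rw [ENNReal.ofReal_add (by positivity) (by norm_num), ENNReal.ofReal_mul (by norm_num),
        ENNReal.ofReal_natCast]
      norm_num
    rw [Finset.sum_const, Finset.card_univ, hK, ENNReal.ofReal_mul (by positivity),
      ENNReal.ofReal_natCast, nsmul_eq_mul, mul_comm, e]
  refine (mul_le_mul_right hcount _).trans ?_
  rw [← ENNReal.ofReal_mul (by positivity)]
  apply ENNReal.ofReal_le_ofReal
  rcases hK0.eq_or_lt with h0 | h0
  · rw [← h0]; simp only [mul_zero]; positivity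
  · have : K^s = K^(s-1) * K := by
      rw [← Real.rpow_add_one h0.ne']; ring_nf
    rw [this]
    apply le_of_eq; ring

/-- HK-TUBE -/
theorem t_tube : S_TUBE := by
  intro d c hd hc1 hAll R hR ε hε
  have hd0 : (0 : ℝ) < d := by
    have : (1 : ℝ) ≤ d := by exact_mod_cast hd
    linarith
  have hq1 : 1 + 1 / (d : ℝ) ≤ 1 + c / d := by
    have : 1 / (d : ℝ) ≤ c / d := div_le_div_of_nonneg_right hc1.le hd0.le
    linarith
  have hq2 : 1 < 1 + c / (d : ℝ) := by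
    have : 0 < 1 / (d : ℝ) := by positivity
    linarith
  obtain ⟨C0, hC0, hM⟩ := momE hd hc1 hAll hε
  have hg : ∀ n : ℕ, 0 ≤ (fun n : ℕ => C0 * (n : ℝ) ^ ε) n := fun n => by positivity
  obtain ⟨C, hC, hA⟩ := allwG hd hq1 hg ⌈R⌉₊ (winG hd hq2 hg hM) (3 * R) (by linarith)
  refine ⟨C * C0 * 3 ^ ε, by positivity, ?_⟩
  intro δ hδ hδ1 ι _ b P v hv hs
  obtain ⟨N, hN⟩ : ∃ N : ℕ, N = ⌈2 / δ⌉₊ := ⟨_, rfl⟩
  have hN1 : 2 / δ ≤ N := by rw [hN]; exact Nat.le_ceil _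
  have hN2 : (N : ℝ) < 2 / δ + 1 := by rw [hN]; exact Nat.ceil_lt_add_one (by positivity)
  have hN3 : (N : ℝ) ≤ 3 / δ := by
    have h1 : 1 ≤ 1 / δ := by rw [le_div_iff₀ hδ]; linarith
    have h2 : 3 / δ = 2 / δ + 1 / δ := by ring
    linarith
  have hNp : (0 : ℝ) < N := lt_of_lt_of_le (by positivity) hN1
  have hN0 : 1 ≤ N := by exact_mod_cast hNp
  have hr0 : 0 ≤ R * δ := by positivity
  have hNr : (N : ℝ) * (R * δ) ≤ 3 * R := by
    calc (N : ℝ) * (R * δ) ≤ 3 / δ * (R * δ) := mul_le_mul_of_nonneg_right hN3 hr0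
      _ = 3 * R := by field_simp
  have hvk : ∀ i k, |v i k| ≤ 1 := by
    intro i k
    have := (norm_le_pi_norm (v i) k).trans (hv i)
    rwa [Real.norm_eq_abs] at this
  have hinj : ∀ i j, (∀ k, ⌊(N : ℝ) * ((v i k + 1) / 2)⌋ = ⌊(N : ℝ) * ((v j k + 1) / 2)⌋) →
      i = j := by
    intro i j hij
    by_contra hne
    have h1 := hs i j hne
    obtain ⟨k, hk⟩ := Pool.Agent.Y254.EL.exists_coord (w := v i - v j) (lt_of_lt_of_le hδ h1)
    refine Pool.Agent.W605.HM.floor_ne ?_ (hij k)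
    have h2 : (N : ℝ) * ((v i k + 1) / 2) - N * ((v j k + 1) / 2) = N / 2 * (v i - v j) k := by
      rw [Pi.sub_apply]
      ring
    rw [h2, abs_mul, hk, abs_of_pos (by positivity : (0 : ℝ) < N / 2)]
    calc (1 : ℝ) = 2 / δ / 2 * δ := by field_simp
      _ ≤ N / 2 * ‖v i - v j‖ :=
        mul_le_mul (div_le_div_of_nonneg_right hN1 (by norm_num)) h1 hδ.le (by positivity)
  have h1 := hA N ι P v b (R * δ) hN0 hr0 hNr hvk hinj
  refine (lintegral_mono fun x => ?_).trans (h1.trans ?_)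
  · refine ENNReal.rpow_le_rpow ?_ (by linarith)
    unfold Pool.Agent.Y254.mult
    refine Finset.sum_le_sum fun i _ => ?_
    by_cases hx : x ∈ Pool.Agent.Y254.EL.tb R (R * δ) (b i) (P i) (v i)
    · have h2 : |x.1 - b i| ≤ (⌈R⌉₊ : ℝ) ∧
          ∀ k, |x.2 k - (P i k + x.1 * v i k)| ≤ R * δ := by
        refine ⟨hx.1.trans (Nat.le_ceil R), fun k => ?_⟩
        have h3 := (norm_le_pi_norm _ k).trans hx.2
        simp only [Pi.sub_apply, Pi.smul_apply, smul_eq_mul, Real.norm_eq_abs] at h3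
        have h4 : x.2 k - (P i k + x.1 * v i k) = x.2 k - P i k - x.1 * v i k := by ring
        rw [h4]
        exact h3
      rw [Set.indicator_of_mem hx, if_pos h2]
      exact le_rfl
    · rw [Set.indicator_of_notMem hx]
      exact zero_le
  · apply ENNReal.ofReal_le_ofReal
    have h3 : (N : ℝ) ^ (-(d : ℝ)) ≤ δ ^ d := by
      have h4 : (δ⁻¹ : ℝ) ≤ N := by
        refine le_trans ?_ hN1
        rw [inv_eq_one_div]
        exact div_le_div_of_nonneg_right (by norm_num) hδ.le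
      calc (N : ℝ) ^ (-(d : ℝ)) ≤ (δ⁻¹) ^ (-(d : ℝ)) :=
            Real.rpow_le_rpow_of_nonpos (by positivity) h4 (by linarith)
        _ = δ ^ (d : ℝ) := by
            rw [Real.inv_rpow hδ.le, Real.rpow_neg hδ.le, inv_inv]
        _ = δ ^ d := Real.rpow_natCast _ _
    have h5 : (N : ℝ) ^ ε ≤ 3 ^ ε * δ ^ (-ε) := by
      calc (N : ℝ) ^ ε ≤ (3 / δ) ^ ε := Real.rpow_le_rpow hNp.le hN3 hε.le
        _ = 3 ^ ε * δ ^ (-ε) := by
            rw [Real.div_rpow (by norm_num) hδ.le, Real.rpow_neg hδ.le, div_eq_mul_inv]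
    have h6 : 0 ≤ (Fintype.card ι : ℝ) ^ (1 + c / (d : ℝ) - 1 / (d : ℝ)) :=
      Real.rpow_nonneg (Nat.cast_nonneg _) _
    calc C * (C0 * (N : ℝ) ^ ε) * (N : ℝ) ^ (-(d : ℝ)) *
          (Fintype.card ι : ℝ) ^ (1 + c / (d : ℝ) - 1 / (d : ℝ))
        ≤ C * (C0 * (3 ^ ε * δ ^ (-ε))) * δ ^ d *
          (Fintype.card ι : ℝ) ^ (1 + c / (d : ℝ) - 1 / (d : ℝ)) := by
          gcongr
      _ = _ := by ring

end Pool.Agent.Y244.HK
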